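import Mathlib
import Pool.Agent.D0H59.AR.End

/-!
# MP_c307ca_nt: Lang's inequality for fractions with additive structure, e.g. long blocks of zeros

Let `ξ` be a real irrational algebraic number and `S` a finite set of primes.

(1) (additive form of the theorems of Roth and Ridout.) For `ε > 0` there is `c > 0` such that
`|ξ - p / q| > c q ^ (-ε) / ∏ max (1, |a_t|)` for ALL fractions `p / q` and all ways to write
`p = ∑ b_t a_t u_t`, `q = ∑ d_t a_t u_t` with `k` terms, where the `u_t` are positive integers composed of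
primes in `S`, the `a_t` are integers, and the integers `b_t`, `d_t` are at most `M` in absolute value.
There is no condition on the size of the terms, nor on cancellations. For `k = 2` and
`p = a_1 u_1`, `q = a_2 u_2` this is Ridout's theorem (Roth's theorem if `u_1 = u_2 = 1`).

(2) If only one combination `r p + s q` (`|r|, |s| ≤ D`, not both zero; for instance `q` or `p`) is written as
`∑ a_t u_t`, the other number being arbitrary, then `|ξ - p / q| > c q ^ (-1 - ε) / ∏ max (1, |a_t|)`.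

(3) Therefore Lang's inequality `|ξ - p / q| > c / (q ^ 2 (log q) ^ (1 + ε))` holds for all `p / q` with
`∏ max (1, |a_t|) ≤ q ^ (2 - δ)` in (1), and for all `p / q` with `∏ max (1, |a_t|) ≤ q ^ (1 - δ)` in (2).

(4) In particular, for every base `g`, Lang's inequality holds for all `p / q` such that the base `g`
expansion of `q`, or of `|p|`, or of `n = |r p + s q|`, contains a block of at least `δ log n / log g` zeros
(or of equal digits, or a periodic block with bounded period).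
-/

set_option autoImplicit false

namespace Pool.Agent.Results.MP_c307ca_nt.AdditiveRothRidout

open Pool.Agent.D0H59.AR

theorem result :
    (∀ ξ : ℝ, IsAlgebraic ℚ ξ → Irrational ξ →
      ∀ (S : Finset ℕ) (k M : ℕ) (ε : ℝ), 0 < ε →
        ∃ c : ℝ, 0 < c ∧ ∀ (p : ℤ) (q : ℕ), 1 ≤ q →
          ∀ (a : Fin k → ℤ) (u : Fin k → ℕ) (b d : Fin k → ℤ),
            (∀ t, u t ∈ Nat.factoredNumbers S) → (∀ t, |b t| ≤ M ∧ |d t| ≤ M) →
            p = ∑ t, b t * (a t * u t) → (q : ℤ) = ∑ t, d t * (a t * u t) →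
            c * (q : ℝ) ^ (-ε) / ∏ t, max 1 |(a t : ℝ)| < |ξ - (p : ℝ) / q|) ∧
    (∀ ξ : ℝ, IsAlgebraic ℚ ξ → Irrational ξ →
      ∀ (S : Finset ℕ) (k D : ℕ) (ε : ℝ), 0 < ε →
        ∃ c : ℝ, 0 < c ∧ ∀ (p : ℤ) (q : ℕ), 1 ≤ q →
          ∀ (a : Fin k → ℤ) (u : Fin k → ℕ) (r s : ℤ),
            (∀ t, u t ∈ Nat.factoredNumbers S) → (r ≠ 0 ∨ s ≠ 0) → |r| ≤ D → |s| ≤ D →
            r * p + s * q = ∑ t, a t * u t →
            c * (q : ℝ) ^ (-1 - ε) / ∏ t, max 1 |(a t : ℝ)| < |ξ - (p : ℝ) / q|) ∧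
    (∀ ξ : ℝ, IsAlgebraic ℚ ξ → Irrational ξ →
      ∀ (S : Finset ℕ) (k M : ℕ) (δ ε : ℝ), 0 < δ → 0 < ε →
        ∃ c : ℝ, 0 < c ∧ ∀ (p : ℤ) (q : ℕ), 2 ≤ q →
          ∀ (a : Fin k → ℤ) (u : Fin k → ℕ), (∀ t, u t ∈ Nat.factoredNumbers S) →
            ((∏ t, max 1 |(a t : ℝ)| ≤ (q : ℝ) ^ (2 - δ) ∧
              ∃ b d : Fin k → ℤ, (∀ t, |b t| ≤ M ∧ |d t| ≤ M) ∧
                p = ∑ t, b t * (a t * u t) ∧ (q : ℤ) = ∑ t, d t * (a t * u t)) ∨
            (∏ t, max 1 |(a t : ℝ)| ≤ (q : ℝ) ^ (1 - δ) ∧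
              ∃ r s : ℤ, (r ≠ 0 ∨ s ≠ 0) ∧ |r| ≤ M ∧ |s| ≤ M ∧
                r * p + s * q = ∑ t, a t * u t)) →
            c / ((q : ℝ) ^ 2 * (Real.log q) ^ (1 + ε)) < |ξ - (p : ℝ) / q|) ∧
    (∀ ξ : ℝ, IsAlgebraic ℚ ξ → Irrational ξ →
      ∀ (g D R : ℕ) (δ ε : ℝ), 2 ≤ g → 0 < δ → 0 < ε →
        ∃ c : ℝ, 0 < c ∧ ∀ (p : ℤ) (q : ℕ), 2 ≤ q →
          ∀ (r s : ℤ) (n i L ρ : ℕ), (r ≠ 0 ∨ s ≠ 0) → |r| ≤ D → |s| ≤ D →
            (n : ℤ) = |r * p + s * q| → 1 ≤ ρ → ρ ≤ R →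
            g ^ (i + L) ≤ n → (n : ℝ) ^ δ ≤ (g : ℝ) ^ L →
            (∀ j, i ≤ j → j < i + L → n / g ^ j % g = n / g ^ (j + ρ) % g) →
            c / ((q : ℝ) ^ 2 * (Real.log q) ^ (1 + ε)) < |ξ - (p : ℝ) / q|) := by
  refine ⟨?_, ?_, ?_, ?_⟩
  · intro ξ hξ hirr S k M ε hε
    obtain ⟨c, hc, h⟩ := roth ξ hξ hirr S k M ε hε
    refine ⟨c, hc, fun p q hq a u b d hu hbd hp hqs => ?_⟩
    have h1 := h p q hq a u b d hu (fun t => (hbd t).1) (fun t => (hbd t).2) hp hqs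
    rw [mul_div_assoc]
    exact h1
  · intro ξ hξ hirr S k D ε hε
    obtain ⟨c, hc, h⟩ := roth2 ξ hξ hirr S k D ε hε
    refine ⟨c, hc, fun p q hq a u r s hu hrs hr hs he => ?_⟩
    have h1 := h p q hq r s a u hrs hr hs hu he
    rw [mul_div_assoc]
    exact h1
  · intro ξ hξ hirr S k M δ ε hδ hε
    obtain ⟨c1, hc1, h1⟩ := roth ξ hξ hirr S k M δ hδ
    obtain ⟨c2, hc2, h2⟩ := roth2 ξ hξ hirr S k M δ hδ
    have hl2 : 0 < Real.log 2 := Real.log_pos one_lt_two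
    have hl2' : 0 < (Real.log 2) ^ (1 + ε) := Real.rpow_pos_of_pos hl2 _
    refine ⟨min c1 c2 * (Real.log 2) ^ (1 + ε), mul_pos (lt_min hc1 hc2) hl2',
      fun p q hq a u hu h => ?_⟩
    apply lang_of q hq (min c1 c2) ε _ (lt_min hc1 hc2) hε
    have hq0 : (0 : ℝ) < q := by exact_mod_cast (by omega : 0 < q)
    have hP : 0 < ∏ t, ht (a t) := Finset.prod_pos fun _ _ => ht_pos _
    rcases h with ⟨h, b, d, hbd, hp, hqs⟩ | ⟨h, r, s, hrs, hr, hs, he⟩
    · refine lt_of_le_of_lt ?_ (h1 p q (by omega) a u b d hu (fun t => (hbd t).1)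
        (fun t => (hbd t).2) hp hqs)
      apply mul_le_mul (min_le_left _ _) _ (Real.rpow_nonneg hq0.le _) hc1.le
      rw [le_div_iff₀ hP]
      calc (q : ℝ) ^ (-2 : ℝ) * ∏ t, ht (a t) ≤ (q : ℝ) ^ (-2 : ℝ) * (q : ℝ) ^ (2 - δ) :=
            mul_le_mul_of_nonneg_left h (Real.rpow_nonneg hq0.le _)
        _ = (q : ℝ) ^ (-δ) := by
            rw [← Real.rpow_add hq0]
            congr 1
            ring
    · refine lt_of_le_of_lt ?_ (h2 p q (by omega) r s a u hrs hr hs hu he)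
      apply mul_le_mul (min_le_right _ _) _ (Real.rpow_nonneg hq0.le _) hc2.le
      rw [le_div_iff₀ hP]
      calc (q : ℝ) ^ (-2 : ℝ) * ∏ t, ht (a t) ≤ (q : ℝ) ^ (-2 : ℝ) * (q : ℝ) ^ (1 - δ) :=
            mul_le_mul_of_nonneg_left h (Real.rpow_nonneg hq0.le _)
        _ = (q : ℝ) ^ (-1 - δ) := by
            rw [← Real.rpow_add hq0]
            congr 1
            ring
  · intro ξ hξ hirr g D R δ' ε hg hδ' hε
    set δ : ℝ := min δ' 1 with hδdef
    have hδ : 0 < δ := lt_min hδ' one_pos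
    have hδ1 : δ ≤ 1 := min_le_right _ _
    obtain ⟨c1, hc1, h1⟩ := roth2 ξ hξ hirr g.primeFactors 2 (g ^ R * D) δ hδ
    have hg0 : 0 < g := by omega
    have hgR : (0 : ℝ) < g := by exact_mod_cast hg0
    have hg1 : (1 : ℝ) ≤ g := by exact_mod_cast hg0
    set K : ℝ := (D : ℝ) * (|ξ| + 2) + 1 with hK
    have hK1 : 1 ≤ K := by
      have : 0 ≤ (D : ℝ) * (|ξ| + 2) := by positivity
      linarith
    have hK0 : 0 < K := by linarith
    set c : ℝ := min 1 (c1 / ((g : ℝ) ^ R * K)) with hc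
    have hc0 : 0 < c := lt_min one_pos (by positivity)
    have hl2 : 0 < Real.log 2 := Real.log_pos one_lt_two
    have hl2' : 0 < (Real.log 2) ^ (1 + ε) := Real.rpow_pos_of_pos hl2 _
    refine ⟨c * (Real.log 2) ^ (1 + ε), mul_pos hc0 hl2',
      fun p q hq r s n i L ρ hrs hr hs hn hρ1 hρR hni hnL hper => ?_⟩
    apply lang_of q hq c ε _ hc0 hε
    have hq2 : (2 : ℝ) ≤ q := by exact_mod_cast hq
    have hq0 : (0 : ℝ) < q := by linarith
    have hc1' : c ≤ 1 := min_le_left _ _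
    rcases lt_or_ge 1 |ξ - (p : ℝ) / q| with hbig | hle
    · have h2 : (q : ℝ) ^ (-2 : ℝ) ≤ 1 :=
        Real.rpow_le_one_of_one_le_of_nonpos (by linarith) (by norm_num)
      have h3 : 0 < (q : ℝ) ^ (-2 : ℝ) := Real.rpow_pos_of_pos hq0 _
      nlinarith
    -- the size of `n`
    have hp := abs_p_le ξ p q (by omega) hle
    have hnq : (n : ℝ) ≤ K * q := by
      have h2 : (n : ℝ) = |(r : ℝ) * p + s * q| := by exact_mod_cast hn
      have hr' : |(r : ℝ)| ≤ D := by exact_mod_cast hr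
      have hs' : |(s : ℝ)| ≤ D := by exact_mod_cast hs
      rw [h2]
      calc |(r : ℝ) * p + s * q| ≤ |(r : ℝ)| * |(p : ℝ)| + |(s : ℝ)| * q := by
            refine (abs_add_le _ _).trans ?_
            rw [abs_mul, abs_mul, Nat.abs_cast]
        _ ≤ (D : ℝ) * ((|ξ| + 1) * q) + D * q := by
            apply add_le_add
            · exact mul_le_mul hr' hp (abs_nonneg _) (Nat.cast_nonneg _)
            · exact mul_le_mul_of_nonneg_right hs' hq0.le
        _ ≤ K * q := by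
            rw [hK]
            nlinarith
    have hn1 : 1 ≤ n := le_trans (Nat.one_le_pow _ _ hg0) hni
    have hn1R : (1 : ℝ) ≤ n := by exact_mod_cast hn1
    have hn0R : (0 : ℝ) < n := by linarith
    obtain ⟨W, B, hWB, hht⟩ := block' g n i L ρ hg hni hper
    -- the combination
    have hgρ : (1 : ℤ) ≤ (g : ℤ) ^ ρ - 1 := by
      have h2 : (2 : ℤ) ≤ (g : ℤ) ^ ρ := by
        calc (2 : ℤ) ≤ g := by exact_mod_cast hg
          _ = (g : ℤ) ^ 1 := (pow_one _).symm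
          _ ≤ (g : ℤ) ^ ρ := pow_le_pow_right₀ (by exact_mod_cast hg0) hρ1
      linarith
    have hgρR : (g : ℤ) ^ ρ - 1 ≤ (g : ℤ) ^ R := by
      have h2 : (g : ℤ) ^ ρ ≤ (g : ℤ) ^ R := pow_le_pow_right₀ (by exact_mod_cast hg0) hρR
      linarith
    obtain ⟨σ, hσ, hσn⟩ : ∃ σ : ℤ, (σ = 1 ∨ σ = -1) ∧ σ * (r * p + s * q) = n := by
      rcases abs_cases (r * p + s * q) with ⟨h2, _⟩ | ⟨h2, _⟩
      · exact ⟨1, Or.inl rfl, by rw [hn, h2]; ring⟩
      · exact ⟨-1, Or.inr rfl, by rw [hn, h2]; ring⟩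
    have hσ0 : σ ≠ 0 := by
      rcases hσ with h2 | h2 <;> rw [h2] <;> norm_num
    have hσ1 : |σ| = 1 := by
      rcases hσ with h2 | h2 <;> rw [h2] <;> rfl
    have hbd : ∀ x : ℤ, |x| ≤ D → |((g : ℤ) ^ ρ - 1) * σ * x| ≤ (g ^ R * D : ℕ) := by
      intro x hx
      rw [abs_mul, abs_mul, hσ1, mul_one, abs_of_pos (by linarith : 0 < (g : ℤ) ^ ρ - 1)]
      push_cast
      exact mul_le_mul hgρR hx (abs_nonneg _) (by positivity)
    have hne : ((g : ℤ) ^ ρ - 1) * σ * r ≠ 0 ∨ ((g : ℤ) ^ ρ - 1) * σ * s ≠ 0 := by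
      have h2 : ((g : ℤ) ^ ρ - 1) * σ ≠ 0 := mul_ne_zero (by linarith) hσ0
      rcases hrs with h3 | h3
      · exact Or.inl (mul_ne_zero h2 h3)
      · exact Or.inr (mul_ne_zero h2 h3)
    have h2 := h1 p q (by omega) (((g : ℤ) ^ ρ - 1) * σ * r) (((g : ℤ) ^ ρ - 1) * σ * s)
      ![(W : ℤ), B] ![g ^ (i + ρ + L), 1] hne (hbd r hr) (hbd s hs)
      (by
        intro t
        fin_cases t
        · refine ⟨pow_ne_zero _ hg0.ne', ?_⟩
          intro x hx
          have h3 := Nat.mem_primeFactorsList (pow_ne_zero (i + ρ + L) hg0.ne') |>.1 hx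
          exact Nat.mem_primeFactors.2 ⟨h3.1, h3.1.dvd_of_dvd_pow h3.2, hg0.ne'⟩
        · exact ⟨one_ne_zero, by simp⟩)
      (by
        rw [Fin.sum_univ_two]
        simp only [Matrix.cons_val_zero, Matrix.cons_val_one]
        rw [← hWB, ← hσn]
        ring)
    refine lt_of_le_of_lt ?_ h2
    rw [Fin.prod_univ_two]
    simp only [Matrix.cons_val_zero, Matrix.cons_val_one]
    have hWB0 : 0 < ht W * ht B := mul_pos (ht_pos _) (ht_pos _)
    have h3 : ht W * ht B * (q : ℝ) ^ δ ≤ (g : ℝ) ^ R * K * q := by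
      have hgL : (0 : ℝ) < (g : ℝ) ^ L := by positivity
      have h4 : (n : ℝ) ^ δ ≤ (g : ℝ) ^ L :=
        (Real.rpow_le_rpow_of_exponent_le hn1R (min_le_left _ _)).trans hnL
      have h5 : ht W * ht B * (n : ℝ) ^ δ ≤ (g : ℝ) ^ R * n := by
        calc ht W * ht B * (n : ℝ) ^ δ ≤ ht W * ht B * (g : ℝ) ^ L :=
              mul_le_mul_of_nonneg_left h4 hWB0.le
          _ ≤ (g : ℝ) ^ ρ * n := hht
          _ ≤ (g : ℝ) ^ R * n :=
              mul_le_mul_of_nonneg_right (pow_le_pow_right₀ hg1 hρR) hn0R.le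
      have h6 : 0 < (n : ℝ) ^ δ := Real.rpow_pos_of_pos hn0R _
      have h7 : ht W * ht B ≤ (g : ℝ) ^ R * (n : ℝ) ^ (1 - δ) := by
        rw [Real.rpow_sub hn0R, Real.rpow_one, ← mul_div_assoc, le_div_iff₀ h6]
        exact h5
      have h8 : (n : ℝ) ^ (1 - δ) ≤ (K * q) ^ (1 - δ) :=
        Real.rpow_le_rpow hn0R.le hnq (by linarith)
      have h9 : (K * q) ^ (1 - δ) ≤ K * (q : ℝ) ^ (1 - δ) := by
        rw [Real.mul_rpow hK0.le hq0.le]
        apply mul_le_mul_of_nonneg_right _ (Real.rpow_nonneg hq0.le _)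
        calc K ^ (1 - δ) ≤ K ^ (1 : ℝ) := Real.rpow_le_rpow_of_exponent_le hK1 (by linarith)
          _ = K := Real.rpow_one _
      calc ht W * ht B * (q : ℝ) ^ δ ≤ (g : ℝ) ^ R * (n : ℝ) ^ (1 - δ) * (q : ℝ) ^ δ :=
            mul_le_mul_of_nonneg_right h7 (Real.rpow_nonneg hq0.le _)
        _ ≤ (g : ℝ) ^ R * (K * (q : ℝ) ^ (1 - δ)) * (q : ℝ) ^ δ := by
            apply mul_le_mul_of_nonneg_right _ (Real.rpow_nonneg hq0.le _)
            exact mul_le_mul_of_nonneg_left (h8.trans h9) (by positivity)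
        _ = (g : ℝ) ^ R * K * ((q : ℝ) ^ (1 - δ) * (q : ℝ) ^ δ) := by ring
        _ = (g : ℝ) ^ R * K * q := by
            rw [← Real.rpow_add hq0]
            congr 1
            rw [sub_add_cancel, Real.rpow_one]
    have hgRK : 0 < (g : ℝ) ^ R * K := by positivity
    calc c * (q : ℝ) ^ (-2 : ℝ) ≤ c1 / ((g : ℝ) ^ R * K) * (q : ℝ) ^ (-2 : ℝ) :=
          mul_le_mul_of_nonneg_right (min_le_right _ _) (Real.rpow_nonneg hq0.le _)
      _ = c1 * ((q : ℝ) ^ (-2 : ℝ) / ((g : ℝ) ^ R * K)) := by ring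
      _ ≤ c1 * ((q : ℝ) ^ (-1 - δ) / (ht W * ht B)) := by
          apply mul_le_mul_of_nonneg_left _ hc1.le
          rw [div_le_div_iff₀ hgRK hWB0]
          have h4 : (q : ℝ) ^ (-1 - δ) = (q : ℝ) ^ (-2 : ℝ) * q / (q : ℝ) ^ δ := by
            rw [show -1 - δ = -2 + 1 - δ by ring, Real.rpow_sub hq0, Real.rpow_add hq0,
              Real.rpow_one]
          have h5 : 0 < (q : ℝ) ^ δ := Real.rpow_pos_of_pos hq0 _
          have h6 : 0 < (q : ℝ) ^ (-2 : ℝ) := Real.rpow_pos_of_pos hq0 _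
          rw [h4, div_mul_eq_mul_div, le_div_iff₀ h5]
          calc (q : ℝ) ^ (-2 : ℝ) * (ht W * ht B) * (q : ℝ) ^ δ =
              (q : ℝ) ^ (-2 : ℝ) * (ht W * ht B * (q : ℝ) ^ δ) := by ring
            _ ≤ (q : ℝ) ^ (-2 : ℝ) * ((g : ℝ) ^ R * K * q) :=
                mul_le_mul_of_nonneg_left h3 h6.le
            _ = _ := by ring

end Pool.Agent.Results.MP_c307ca_nt.AdditiveRothRidout
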