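import Pool.Agent.D0H53.AP.Tail
import Pool.Agent.D0H53.AP.Khin

set_option autoImplicit false

/-!
# The Poisson law at Lang's threshold for the algebraic numbers of a given degree, ordered by the height

Let `d ≥ 1`. We consider all real algebraic numbers of degree `d` whose height, the largest absolute value of
the coefficients of the minimal polynomial over `ℤ`, is at most `H`, either on the whole real line or in an
interval `[a, b)` with integer endpoints. The number of them has the order of magnitude `H ^ (d + 1)`.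

We count the reduced fractions `p / q` with `Q₁ < q ≤ Q₂` and `|α - p / q| ≤ δ(q) / q²`, where
`Q₂ ≤ H ^ κ` for some `κ < 1` and `δ` is small and nonincreasing on the window. As `H → ∞`, the
distribution of this number over the algebraic numbers `α` of degree `d` and height at most `H` tends in total
variation to the Poisson law with the mean `(12 / π²) ∑ δ(q) / q`, uniformly in the window and in `δ`, as long
as the mean is bounded. (For `d = 1` the numbers are the rational numbers `a / b` with `|a|, b ≤ H`, and `κ < 1` is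
the largest range for which this can be true.)

Consequences:
* Lang's threshold `δ(q) = z / log q` on the window `H ^ a < q ≤ H ^ c`, `0 < a < c < 1`: the mean is
  `(12 / π²) z log (c / a)`;
* the divergence case of Khintchine's theorem for the algebraic numbers of degree `d`;
* for `ε = 0` Lang's inequality `|α - p / q| > c / (q² (log q) ^ (1 + ε))`, `2 ≤ q ≤ H ^ κ`, is false for
  almost all the numbers, whatever `c > 0` and `κ > 0` are; for `ε > 0` and small `c` it holds for almost all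
  of them (`AlmostAllBeyondHeight` in the starting files).

Proof: the factorial moments of the number of fractions are sums over the chains of fractions which are close
to each other (library `Pool.Agent.D0H53.PL`, here in a weighted form, `Pool.Agent.D0H53.AP.Wm`). The number
of the pairs (polynomial, root) with the root in a short interval is asymptotically the length of the
interval times a density, which is a sum over the polynomials without the constant term (`Rt`, `Per`, `Den`);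
here the constant term is used as the free variable. In an interval around `p / q` with `q ≤ H` the error is
smaller by the factor `q`, since the values at `p / q` of `q` polynomials, which differ only in the coefficient of
`X`, are equidistributed modulo one (`Blk`, `Frac`, `Frd`); this gives all `κ < 1`. The density is not constant, its sums over the fractions
with a given denominator are computed by the comparison with the number of the pairs in arcs and the Möbius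
function (`Sum`). The primitive polynomials are reached by the inversion of Möbius (`Pol`, `Prm`) and almost
all polynomials are irreducible (`Irr`).
-/

namespace Pool.Agent.Results.MP_c307ca_nt.AlgebraicNumbersByHeight

open Pool.Agent.D0H53
open ProbabilityTheory (poissonMeasure)

/-- The real algebraic numbers of degree `d` and height at most `H` in the set `T`: the roots in `T` of the
irreducible polynomials in `ℤ[X]` of degree `d` with coefficients of absolute value at most `H`. -/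
def Alg (d H : ℕ) (T : Set ℝ) : Set ℝ :=
  {α | α ∈ T ∧ ∃ P : Polynomial ℤ, Irreducible P ∧ P.natDegree = d ∧ (∀ i, |P.coeff i| ≤ (H : ℤ)) ∧
    Polynomial.aeval α P = 0}

/-- The share of the numbers in `Alg d H T` which lie in `X`. -/
noncomputable def share (d H : ℕ) (T X : Set ℝ) : ℝ :=
  ((Alg d H T ∩ X).ncard : ℝ) / ((Alg d H T).ncard : ℝ)

/-- The number of the reduced fractions `p / q` with `Q₁ < q ≤ Q₂` and `|α - p / q| ≤ δ(q) / q²`. -/
noncomputable def hits (Q₁ Q₂ : ℕ) (δ : ℕ → ℝ) (α : ℝ) : ℕ :=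
  {x : ℤ × ℕ | Q₁ < x.2 ∧ x.2 ≤ Q₂ ∧ IsCoprime x.1 (x.2 : ℤ) ∧
    |α - (x.1 : ℝ) / x.2| ≤ δ x.2 / (x.2 : ℝ) ^ 2}.ncard

/-- The mean `(12 / π²) ∑ δ(q) / q` over `Q₁ < q ≤ Q₂`. -/
noncomputable def mean (Q₁ Q₂ : ℕ) (δ : ℕ → ℝ) : ℝ :=
  12 / Real.pi ^ 2 * ∑ q ∈ Finset.Ioc Q₁ Q₂, δ q / q

/-- Lang's inequality for the number `α` with the constant `c`, for the denominators up to `N`. -/
def LangUpTo (N c ε α : ℝ) : Prop :=
  ∀ (p : ℤ) (q : ℕ), 2 ≤ q → (q : ℝ) ≤ N →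
    c / ((q : ℝ) ^ 2 * Real.log q ^ (1 + ε)) < |α - (p : ℝ) / q|

/-- `T` is the real line or an interval `[a, b)` with integer endpoints. -/
def Admissible (T : Set ℝ) : Prop := T = Set.univ ∨ ∃ a b : ℤ, a < b ∧ T = Set.Ico (a : ℝ) (b : ℝ)

theorem law_T (d : ℕ) (hd : 1 ≤ d) (T : Set ℝ) (hT : Admissible T) :
    AP.LawZ (fun H T => ((AP.AlgR d H T).ncard : ℝ)) T := by
  rcases hT with rfl | ⟨a, b, hab, rfl⟩
  · exact AP.Alg_univ d hd
  · obtain ⟨m, hm⟩ : ∃ m : ℕ, b = a + (m + 1 : ℕ) := ⟨(b - a - 1).toNat, by omega⟩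
    have h := AP.Alg_Ico d hd a m
    have e : (a : ℝ) + ((m + 1 : ℕ) : ℝ) = (b : ℝ) := by
      rw [hm]
      push_cast
      ring
    rw [e] at h
    exact h

theorem ge_T (d : ℕ) (hd : 1 ≤ d) (T : Set ℝ) (hT : Admissible T) : ∃ c : ℝ, 0 < c ∧ ∃ H₀ : ℕ, ∀ H : ℕ, H₀ ≤ H →
    c * (H : ℝ) ^ (d + 1) ≤ ((AP.AlgR d H T).ncard : ℝ) := by
  rcases hT with rfl | ⟨a, b, hab, rfl⟩
  · obtain ⟨c, hc, H₀, -, h⟩ := AP.Alg_ge d hd 0
    exact ⟨c, hc, H₀, fun H hH => (h H hH).trans (AP.Alg_mono d hd H _ _ (Set.subset_univ _))⟩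
  · obtain ⟨c, hc, H₀, -, h⟩ := AP.Alg_ge d hd a
    refine ⟨c, hc, H₀, fun H hH => (h H hH).trans (AP.Alg_mono d hd H _ _ ?_)⟩
    apply Set.Ico_subset_Ico_right
    have : a + 1 ≤ b := hab
    exact_mod_cast this

theorem inter_eq (d H : ℕ) (T X : Set ℝ) : Alg d H T ∩ X = AP.AlgR d H (T ∩ X) := by
  ext x
  constructor
  · rintro ⟨⟨h1, h2⟩, h3⟩
    exact ⟨⟨h1, h3⟩, h2⟩
  · rintro ⟨⟨h1, h3⟩, h2⟩
    exact ⟨⟨h1, h2⟩, h3⟩

theorem share_eq (d H : ℕ) (T X : Set ℝ) :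
    share d H T X = ((AP.AlgR d H (T ∩ X)).ncard : ℝ) / ((AP.AlgR d H T).ncard : ℝ) := by
  unfold share
  rw [inter_eq]
  rfl

theorem pos_T (d : ℕ) (hd : 1 ≤ d) (T : Set ℝ) (hT : Admissible T) : ∃ H₀ : ℕ, ∀ H : ℕ, H₀ ≤ H →
    (0 : ℝ) < ((AP.AlgR d H T).ncard : ℝ) := by
  obtain ⟨c, hc, H₀, h⟩ := ge_T d hd T hT
  refine ⟨max H₀ 1, fun H hH => lt_of_lt_of_le ?_ (h H ((le_max_left _ _).trans hH))⟩
  have : (0 : ℝ) < H := by exact_mod_cast (le_max_right _ _).trans hH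
  positivity

theorem share_compl (d : ℕ) (hd : 1 ≤ d) (H : ℕ) (T X Y : Set ℝ) (hXY : X ∪ Y = Set.univ)
    (h0 : (0 : ℝ) < ((AP.AlgR d H T).ncard : ℝ)) : 1 - share d H T X ≤ share d H T Y := by
  rw [share_eq, share_eq]
  have h1 : AP.AlgR d H T ⊆ AP.AlgR d H (T ∩ X) ∪ AP.AlgR d H (T ∩ Y) := by
    rintro x ⟨h1, h2⟩
    have h3 : x ∈ X ∪ Y := by rw [hXY]; exact Set.mem_univ x
    rcases h3 with h3 | h3
    · exact Or.inl ⟨⟨h1, h3⟩, h2⟩
    · exact Or.inr ⟨⟨h1, h3⟩, h2⟩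
  have h2 : ((AP.AlgR d H T).ncard : ℝ) ≤
      ((AP.AlgR d H (T ∩ X)).ncard : ℝ) + ((AP.AlgR d H (T ∩ Y)).ncard : ℝ) := by
    have h3 := (Set.ncard_le_ncard h1 ((AP.AlgR_finite d H hd _).union (AP.AlgR_finite d H hd _))).trans
      (Set.ncard_union_le _ _)
    exact_mod_cast h3
  rw [sub_le_iff_le_add, ← add_div, le_div_iff₀ h0, one_mul]
  linarith

/-- **Theorem.** Let `d ≥ 1` and let `T` be the real line or an interval `[a, b)` with integer endpoints.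
(1) The number of the real algebraic numbers of degree `d` and height at most `H` in `T` has the order of
magnitude `H ^ (d + 1)`. (2) The Poisson law. (3) The law at Lang's threshold. (4) The divergence case of
Khintchine's theorem. (5) For `ε = 0` Lang's inequality fails for almost all numbers. -/
theorem result (d : ℕ) (hd : 1 ≤ d) (T : Set ℝ) (hT : Admissible T) :
    (∃ c C : ℝ, 0 < c ∧ ∃ H₀ : ℕ, ∀ H : ℕ, H₀ ≤ H → (Alg d H T).Finite ∧
      c * (H : ℝ) ^ (d + 1) ≤ ((Alg d H T).ncard : ℝ) ∧ ((Alg d H T).ncard : ℝ) ≤ C * (H : ℝ) ^ (d + 1)) ∧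
    (∀ κ L ε : ℝ, κ < 1 → 0 < ε → ∃ δ₀ : ℝ, 0 < δ₀ ∧ ∃ H₀ : ℕ, ∀ H : ℕ, H₀ ≤ H →
      ∀ Q₁ Q₂ : ℕ, 1 ≤ Q₁ → (Q₂ : ℝ) ≤ (H : ℝ) ^ κ → ∀ δ : ℕ → ℝ,
      (∀ p q, Q₁ < p → p ≤ q → q ≤ Q₂ → δ q ≤ δ p) → (∀ q, Q₁ < q → q ≤ Q₂ → 0 ≤ δ q ∧ δ q ≤ δ₀) →
      mean Q₁ Q₂ δ ≤ L → ∀ A : Set ℕ,
      |share d H T {α | hits Q₁ Q₂ δ α ∈ A} - (poissonMeasure (mean Q₁ Q₂ δ).toNNReal).real A| ≤ ε) ∧
    (∀ a c z ε : ℝ, 0 < a → a < c → c < 1 → 0 ≤ z → 0 < ε → ∃ H₀ : ℕ, ∀ H : ℕ, H₀ ≤ H → ∀ A : Set ℕ,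
      |share d H T {α | hits ⌊(H : ℝ) ^ a⌋₊ ⌊(H : ℝ) ^ c⌋₊ (fun q => z / Real.log q) α ∈ A} -
        (poissonMeasure (12 / Real.pi ^ 2 * z * Real.log (c / a)).toNNReal).real A| ≤ ε) ∧
    (∀ δ : ℕ → ℝ, (∀ p q, 1 ≤ p → p ≤ q → δ q ≤ δ p) → (∀ q, 1 ≤ q → 0 ≤ δ q) →
      ¬ Summable (fun q : ℕ => δ q / q) → ∀ κ η : ℝ, 0 < κ → 0 < η → ∀ q₀ : ℕ,
      ∃ H₀ : ℕ, ∀ H : ℕ, H₀ ≤ H →
      1 - η ≤ share d H T {α | ∃ (p : ℤ) (q : ℕ), q₀ < q ∧ (q : ℝ) ≤ (H : ℝ) ^ κ ∧ IsCoprime p (q : ℤ) ∧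
        |α - (p : ℝ) / q| ≤ δ q / (q : ℝ) ^ 2}) ∧
    (∀ κ c η : ℝ, 0 < κ → 0 < c → 0 < η → ∃ H₀ : ℕ, ∀ H : ℕ, H₀ ≤ H →
      share d H T {α | LangUpTo ((H : ℝ) ^ κ) c 0 α} ≤ η) := by
  have hlaw := law_T d hd T hT
  have hge := ge_T d hd T hT
  obtain ⟨Hp, hp⟩ := pos_T d hd T hT
  have hmono := AP.Alg_mono d hd
  have hnnZ : ∀ (H : ℕ) (T : Set ℝ), (0 : ℝ) ≤ ((AP.AlgR d H T).ncard : ℝ) := fun _ _ => Nat.cast_nonneg _
  have hdiv : ∀ (H : ℕ) (X : Set ℝ) (r ε : ℝ), Hp ≤ H →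
      |((AP.AlgR d H (T ∩ X)).ncard : ℝ) - r * ((AP.AlgR d H T).ncard : ℝ)| ≤ ε * ((AP.AlgR d H T).ncard : ℝ) →
      |share d H T X - r| ≤ ε := by
    intro H X r ε hH h
    have h0 := hp H hH
    rw [share_eq]
    have e : ((AP.AlgR d H (T ∩ X)).ncard : ℝ) / ((AP.AlgR d H T).ncard : ℝ) - r =
        (((AP.AlgR d H (T ∩ X)).ncard : ℝ) - r * ((AP.AlgR d H T).ncard : ℝ)) / ((AP.AlgR d H T).ncard : ℝ) := by
      field_simp
    rw [e, abs_div, abs_of_pos h0, div_le_iff₀ h0]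
    exact h
  have hdiv2 : ∀ (H : ℕ) (X : Set ℝ) (ε : ℝ), Hp ≤ H →
      ((AP.AlgR d H (T ∩ X)).ncard : ℝ) ≤ ε * ((AP.AlgR d H T).ncard : ℝ) → share d H T X ≤ ε := by
    intro H X ε hH h
    rw [share_eq, div_le_iff₀ (hp H hH)]
    exact h
  refine ⟨?_, ?_, ?_, ?_, ?_⟩
  · obtain ⟨c, hc, H₀, h1⟩ := hge
    obtain ⟨C, hC, h2⟩ := AP.Alg_le d hd
    refine ⟨c, C, hc, max H₀ 1, fun H hH => ⟨AP.AlgR_finite d H hd T, h1 H ((le_max_left _ _).trans hH),
      h2 H ((le_max_right _ _).trans hH) T⟩⟩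
  · intro κ L ε hκ hε
    obtain ⟨δ₀, hδ₀, H₀, hH₀, h⟩ := hlaw κ hκ (max L 0) (le_max_right _ _) ε hε
    refine ⟨δ₀, hδ₀, max H₀ Hp, fun H hH Q₁ Q₂ hQ1 hQ2 δ hanti hδ hmean A => ?_⟩
    have hnn : 0 ≤ mean Q₁ Q₂ δ := by
      unfold mean
      have : 0 ≤ ∑ q ∈ Finset.Ioc Q₁ Q₂, δ q / q := Finset.sum_nonneg fun q hq => by
        rw [Finset.mem_Ioc] at hq
        exact div_nonneg (hδ q hq.1 hq.2).1 (Nat.cast_nonneg _)
      positivity
    have h1 := h H ((le_max_left _ _).trans hH) Q₁ Q₂ hQ1 hQ2 δ hanti (fun q h1 h2 => (hδ q h1 h2).1)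
      (fun q h1 h2 => (hδ q h1 h2).2) (hmean.trans (le_max_left _ _)) (mean Q₁ Q₂ δ) hnn
      (hmean.trans (le_max_left _ _)) (by
        have : PL.Mn Q₂ δ Q₁ = mean Q₁ Q₂ δ := rfl
        rw [this, sub_self, abs_zero]
        exact hδ₀.le) A
    exact hdiv H _ _ ε ((le_max_right _ _).trans hH) h1
  · intro a c z ε ha hac hc hz hε
    obtain ⟨H₀, h⟩ := AP.lang_thr hlaw a c z ha hac hc hz ε hε
    exact ⟨max H₀ Hp, fun H hH A => hdiv H _ _ ε ((le_max_right _ _).trans hH) (h H ((le_max_left _ _).trans hH) A)⟩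
  · intro δ hanti hnn hsum κ η hκ hη q₀
    obtain ⟨H₀, h⟩ := AP.khin_dv hlaw hmono hnnZ δ hanti hnn hsum κ hκ q₀ η hη
    refine ⟨max H₀ Hp, fun H hH => ?_⟩
    have hHp : Hp ≤ H := (le_max_right _ _).trans hH
    have h1 := hdiv2 H _ η hHp (h H ((le_max_left _ _).trans hH))
    refine le_trans ?_ (share_compl d hd H T {x | PL.Pr q₀ ⌊(H : ℝ) ^ κ⌋₊ δ x = ∅} _ ?_ (hp H hHp))
    · linarith
    · rw [Set.eq_univ_iff_forall]
      intro x
      rcases Set.eq_empty_or_nonempty (PL.Pr q₀ ⌊(H : ℝ) ^ κ⌋₊ δ x) with h2 | ⟨⟨p, q⟩, e1, e2, e3, e4⟩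
      · exact Or.inl h2
      · right
        exact ⟨p, q, e1, (Nat.le_floor_iff (by positivity)).1 e2, e3, e4⟩
  · intro κ c η hκ hc hη
    obtain ⟨H₀, h⟩ := AP.lang_z hlaw hmono hnnZ κ hκ c η hc hη
    refine ⟨max H₀ Hp, fun H hH => hdiv2 H _ η ((le_max_right _ _).trans hH) ?_⟩
    refine le_trans (hmono H _ _ ?_) (h H ((le_max_left _ _).trans hH))
    rintro x ⟨hx1, hx2⟩
    refine ⟨hx1, fun p q hq hq' => ?_⟩
    have h3 := hx2 p q hq hq'
    rw [add_zero, Real.rpow_one] at h3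
    exact h3

end Pool.Agent.Results.MP_c307ca_nt.AlgebraicNumbersByHeight
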