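import Pool.Agent.D0H71.LB.Main
import Pool.Agent.N965.LN.Log
import Pool.Agent.N965.LN.Err
import Pool.Agent.N965.LN.Fej
import Pool.Agent.N965.LN.Ftl
import Pool.Agent.N965.LN.Ks
import Pool.Agent.N965.LN.Ps
import Pool.Agent.N965.LN.Psi
import Pool.Agent.N965.LN.Res
import Pool.Agent.N965.LN.Sch

set_option autoImplicit false

/-!
# Lang's inequality for almost all elements with a given denominator, and for almost all integers,
# of every real number field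

Let `1, e_1, …, e_m` (`m ≥ 1`) be real algebraic numbers, linearly independent over `ℚ`, for example
a basis of a real number field `K` of degree `m + 1`, or an integral basis of `K`. For ALL `b ≥ 1` and
`H ≥ 1` we consider the `N = b (2 H + 1) ^ m` numbers

  `α = (a₀ + a_1 e_1 + ⋯ + a_m e_m) / b`,  `0 ≤ a₀ < b`, `|a_i| ≤ H`,

which are different modulo one. For every `κ < 1`, every nonincreasing summable `ψ ≥ 0` and every
`η > 0` there is `c > 0`, which does not depend on `b` and `H`, such that all but at most `η N` of these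
`α` satisfy `|α - p / q| > c ψ(q) / q` for all integers `p` and all `1 ≤ q ≤ N ^ κ` (the rational ones,
those with `a = 0`, are not considered), for instance Lang's inequality
`|α - p / q| > c / (q² (log q)^(1+ε))`. For large `N` this is true for all translates `β + α`, by
arbitrary real numbers `β`, with the same constant.

* `b = 1`: almost all integers of a real number field of degree `d` satisfy Lang's inequality for
  `q ≤ H ^ κ`, `κ < d - 1` (part (5) of the theorem); for `m = 1` almost all integral multiples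
  `n ξ`, `n ≤ H`, of an algebraic irrational number `ξ` do, for `q ≤ H ^ κ`, `κ < 1`.
* `m = 1`, fixed `H`: all but `η b` of the `b` division points `(ξ + a₀) / b`, for `q ≤ b ^ κ`. (In the
  starting result `DivisionPoints` the number of exceptions is `η σ(b)`.)
* The starting result `NumberFields` is about the average over the denominators `b ≤ H`; here every
  denominator, of any size, is considered separately.

Proof: for given `b` and `q` with `g = gcd(b, q)` the numerators `a₀` run `g` times through the residues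
modulo `b / g`; the other coefficients are counted with the Fejér majorant, and the sums of the Fejér
kernels are estimated by Schmidt's theorem (library `Pool.Agent.N965.LN` of helper965 and others, from the
subspace theorem), for each of the `O(b ^ τ)` values of `g` separately. The translates are reduced to the
difference set of the family.
-/

namespace Pool.Agent.Results.MP_c307ca_nt.EveryDenominator

open Pool.Agent.N965 Pool.Agent.D0H71

/-- The coefficient vectors `(a₀, a)` with `0 ≤ a₀ < b` and `|a i| ≤ H`. -/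
def Coeff (m b H : ℕ) : Set (ℤ × (Fin m → ℤ)) :=
  {x | 0 ≤ x.1 ∧ x.1 < (b : ℤ) ∧ ∀ i, |x.2 i| ≤ (H : ℤ)}

/-- The number `(a₀ + a_1 e_1 + ⋯ + a_m e_m) / b`. -/
noncomputable def elt {m : ℕ} (e : Fin m → ℝ) (b : ℕ) (x : ℤ × (Fin m → ℤ)) : ℝ :=
  ((x.1 : ℝ) + ∑ i, (x.2 i : ℝ) * e i) / b

/-- `|α - p / q| > c ψ(q) / q` for all integers `p` and all `1 ≤ q ≤ N`. -/
def KhintchineUpTo (N c : ℝ) (ψ : ℕ → ℝ) (α : ℝ) : Prop :=
  ∀ (p : ℤ) (q : ℕ), 1 ≤ q → (q : ℝ) ≤ N → c * ψ q / q < |α - (p : ℝ) / q|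

/-- Lang's inequality for the number `α` with the constant `c`, for the denominators up to `N`. -/
def LangUpTo (N c ε α : ℝ) : Prop :=
  ∀ (p : ℤ) (q : ℕ), 2 ≤ q → (q : ℝ) ≤ N →
    c / ((q : ℝ) ^ 2 * Real.log q ^ (1 + ε)) < |α - (p : ℝ) / q|

theorem indep {m : ℕ} {e : Fin m → ℝ} (h : LinearIndependent ℚ (Fin.cons 1 e : Fin (m + 1) → ℝ)) :
    LN.Indep e := by
  intro a a₀ h0
  have h1 := Fintype.linearIndependent_iff.1 h (Fin.cons (a₀ : ℚ) fun i => (a i : ℚ)) (by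
      rw [Fin.sum_univ_succ]
      simp only [Fin.cons_zero, Fin.cons_succ]
      have h2 : ∀ (x : ℚ) (y : ℝ), x • y = (x : ℝ) * y := fun x y => Rat.smul_def x y
      simp only [h2]
      push_cast
      simpa using h0)
  funext i
  have h2 := h1 i.succ
  rw [Fin.cons_succ] at h2
  exact_mod_cast h2

theorem ft {m : ℕ} (hm : 1 ≤ m) {e : Fin m → ℝ} (ha : ∀ i, IsAlgebraic ℚ (e i))
    (hi : LN.Indep e) : LN.FT e :=
  LN.t_FTL m _ (LN.t_KS m _ (LN.t_CNT m _ (LN.t_SCH m _ hm ha hi)))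

theorem mem_co {m b H : ℕ} (x : ℤ × (Fin m → ℤ)) : x ∈ LB.co m b H ↔ x ∈ Coeff m b H := by
  unfold LB.co Coeff LN.box
  rw [Finset.mem_product, Finset.mem_Ico, Fintype.mem_piFinset]
  simp only [Finset.mem_Icc, Set.mem_ofPred_eq, abs_le, and_assoc]

theorem coe_co (m b H : ℕ) : ((LB.co m b H : Finset _) : Set (ℤ × (Fin m → ℤ))) = Coeff m b H := by
  ext x
  rw [Finset.mem_coe, mem_co]

theorem bad_eq {m : ℕ} (e : Fin m → ℝ) (β : ℝ) (ψ : ℕ → ℝ) (b H : ℕ) (Y c : ℝ) :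
    LB.Bad e β ψ b H Y c = {x ∈ Coeff m b H | ¬ KhintchineUpTo Y c ψ (β + elt e b x)} := by
  ext x
  unfold LB.Bad KhintchineUpTo
  simp only [Set.mem_ofPred_eq, mem_co]
  push Not
  rfl

theorem lang_of {N c ε α : ℝ} (h : KhintchineUpTo N c (LN.lang ε) α) : LangUpTo N c ε α := by
  intro p q hq2 hqN
  have h7 := h p q (by omega) hqN
  have h8 : c * LN.lang ε q / q = c / ((q : ℝ) ^ 2 * Real.log q ^ (1 + ε)) := by
    rw [mul_div_assoc, LN.lang_eq ε q hq2, mul_one_div]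
  rw [h8] at h7
  exact h7

theorem khintchine {m : ℕ} (hm : 1 ≤ m) (e : Fin m → ℝ) (ha : ∀ i, IsAlgebraic ℚ (e i))
    (hi : LN.Indep e) (κ : ℝ) (hκ : κ < 1) (ψ : ℕ → ℝ) (hψ0 : ∀ q, 0 ≤ ψ q) (hψ : Antitone ψ)
    (hs : Summable ψ) (η : ℝ) (hη : 0 < η) :
    ∃ c : ℝ, 0 < c ∧ ∀ b H : ℕ, 1 ≤ b → 1 ≤ H →
      ({x ∈ Coeff m b H | x.2 ≠ 0 ∧
        ¬ KhintchineUpTo (((b * (2 * H + 1) ^ m : ℕ) : ℝ) ^ κ) c ψ (elt e b x)}.ncard : ℝ) ≤
        η * ((b * (2 * H + 1) ^ m : ℕ) : ℝ) := by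
  obtain ⟨c, hc, h⟩ := LB.main_zero LN.t_RES LN.t_FEJ LN.t_PS LN.t_PSI LN.t_SMALL hm e hi
    (ft hm ha hi) κ hκ ψ hψ0 hψ hs η hη
  refine ⟨c, hc, fun b H hb hH => ?_⟩
  have h1 := h b H hb hH
  rw [bad_eq] at h1
  have h2 : {x ∈ Coeff m b H | x.2 ≠ 0 ∧
        ¬ KhintchineUpTo (((b * (2 * H + 1) ^ m : ℕ) : ℝ) ^ κ) c ψ (elt e b x)} =
      {x ∈ {x ∈ Coeff m b H |
        ¬ KhintchineUpTo (((b * (2 * H + 1) ^ m : ℕ) : ℝ) ^ κ) c ψ (0 + elt e b x)} | x.2 ≠ 0} := by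
    ext x
    simp only [Set.mem_ofPred_eq, zero_add]
    tauto
  rw [h2]
  exact h1

theorem translates {m : ℕ} (hm : 1 ≤ m) (e : Fin m → ℝ) (ha : ∀ i, IsAlgebraic ℚ (e i))
    (hi : LN.Indep e) (κ : ℝ) (hκ : κ < 1) (ψ : ℕ → ℝ) (hψ0 : ∀ q, 0 ≤ ψ q) (hψ : Antitone ψ)
    (hs : Summable ψ) (η : ℝ) (hη : 0 < η) :
    ∃ c : ℝ, 0 < c ∧ ∃ N₀ : ℕ, ∀ b H : ℕ, 1 ≤ b → 1 ≤ H → N₀ ≤ b * (2 * H + 1) ^ m → ∀ β : ℝ,
      ({x ∈ Coeff m b H |
        ¬ KhintchineUpTo (((b * (2 * H + 1) ^ m : ℕ) : ℝ) ^ κ) c ψ (β + elt e b x)}.ncard : ℝ) ≤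
        η * ((b * (2 * H + 1) ^ m : ℕ) : ℝ) := by
  obtain ⟨c, hc, N₀, h⟩ := LB.main LN.t_RES LN.t_FEJ LN.t_PS LN.t_PSI hm e (ft hm ha hi) κ hκ ψ
    hψ0 hψ hs η hη
  refine ⟨c, hc, N₀, fun b H hb hH hN β => ?_⟩
  have h1 := h b H hb hH hN β
  rw [bad_eq] at h1
  exact h1

theorem finite_coeff (m b H : ℕ) : (Coeff m b H).Finite := by
  rw [← coe_co]
  exact Finset.finite_toSet _

theorem ncard_coeff (m b H : ℕ) : (Coeff m b H).ncard = b * (2 * H + 1) ^ m := by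
  rw [← coe_co, Set.ncard_coe_finset, LB.card_co]

theorem elt_inj {m : ℕ} {e : Fin m → ℝ} (hi : LN.Indep e) {b H : ℕ} (hb : 1 ≤ b)
    (x : ℤ × (Fin m → ℤ)) (hx : x ∈ Coeff m b H) (y : ℤ × (Fin m → ℤ)) (hy : y ∈ Coeff m b H)
    (k : ℤ) (h : elt e b x - elt e b y = k) : x = y := by
  have hb0 : (0 : ℝ) < b := by exact_mod_cast hb
  have h1 : (((x.1 - y.1 - b * k : ℤ)) : ℝ) + ∑ i, (((x.2 - y.2) i : ℤ) : ℝ) * e i = 0 := by
    unfold elt at h
    have h2 : ∑ i, (((x.2 - y.2) i : ℤ) : ℝ) * e i =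
        ∑ i, (x.2 i : ℝ) * e i - ∑ i, (y.2 i : ℝ) * e i := by
      rw [← Finset.sum_sub_distrib]
      refine Finset.sum_congr rfl fun i _ => ?_
      rw [Pi.sub_apply]
      push_cast
      ring
    rw [h2]
    field_simp at h
    push_cast
    linarith
  have h2 := hi _ _ h1
  have h3 : x.2 = y.2 := sub_eq_zero.1 h2
  have h4 : (((x.1 - y.1 - b * k : ℤ)) : ℝ) = 0 := by
    rw [h2] at h1
    simpa using h1
  have h5 : x.1 - y.1 - b * k = 0 := by exact_mod_cast h4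
  have h6 : x.1 ≡ y.1 [ZMOD b] := by
    have h7 : (b : ℤ) ∣ y.1 - x.1 := ⟨-k, by linarith⟩
    exact (Int.modEq_iff_dvd).2 h7
  have h7 : x.1 % b = y.1 % b := h6
  rw [Int.emod_eq_of_lt hx.1 hx.2.1, Int.emod_eq_of_lt hy.1 hy.2.1] at h7
  exact Prod.ext h7 h3

/-! ### The integers of a real number field -/

/-- The numbers `a₀ e₀ + ⋯ + a_m e_m` with integers `|a_i| ≤ H`. -/
def Integers {m : ℕ} (e : Fin (m + 1) → ℝ) (H : ℕ) : Set ℝ :=
  {α | ∃ a : Fin (m + 1) → ℤ, (∀ i, |a i| ≤ (H : ℤ)) ∧ α = ∑ i, (a i : ℝ) * e i}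

theorem lang_add_int {N c ε α : ℝ} (k : ℤ) (h : LangUpTo N c ε α) : LangUpTo N c ε (k + α) := by
  intro p q hq hqN
  have hq0 : (q : ℝ) ≠ 0 := by
    have : (0 : ℝ) < q := by exact_mod_cast (show 0 < q by omega)
    exact this.ne'
  have h1 := h (p - q * k) q hq hqN
  have h2 : α - ((p - q * k : ℤ) : ℝ) / q = k + α - (p : ℝ) / q := by
    push_cast
    field_simp
    ring
  rw [h2] at h1
  exact h1

theorem integers {m : ℕ} (hm : 1 ≤ m) (e : Fin (m + 1) → ℝ) (he : e 0 = 1)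
    (ha : ∀ i, IsAlgebraic ℚ (e i)) (hi : LinearIndependent ℚ e) (κ : ℝ) (hκ : κ < m) (ε η : ℝ)
    (hε : 0 < ε) (hη : 0 < η) :
    ∃ c : ℝ, 0 < c ∧ ∀ H : ℕ, 1 ≤ H →
      ({α ∈ Integers e H | Irrational α ∧ ¬ LangUpTo ((H : ℝ) ^ κ) c ε α}.ncard : ℝ) ≤
        η * ((Integers e H).ncard : ℝ) := by
  classical
  set e' : Fin m → ℝ := fun i => e i.succ with he'
  have hcons : (Fin.cons 1 e' : Fin (m + 1) → ℝ) = e := by
    funext i
    refine Fin.cases ?_ (fun j => ?_) i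
    · rw [Fin.cons_zero, he]
    · rw [Fin.cons_succ]
  have hi' : LN.Indep e' := indep (by rw [hcons]; exact hi)
  have hm0 : (0 : ℝ) < m := by exact_mod_cast hm
  set κ' := max κ 0 / m with hκ'
  have hκ1 : κ' < 1 := by
    rw [hκ', div_lt_one hm0]
    exact max_lt hκ hm0
  have hκ0 : 0 ≤ κ' := div_nonneg (le_max_right _ _) hm0.le
  obtain ⟨c, hc, h⟩ := khintchine hm e' (fun i => ha i.succ) hi' κ' hκ1 (LN.lang ε)
    (LN.lang_nonneg ε) (LN.lang_anti ε hε) (LN.lang_summable ε hε) η hη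
  refine ⟨c, hc, fun H hH => ?_⟩
  have h1 := h 1 H le_rfl hH
  set S : Set (ℤ × (Fin m → ℤ)) := {x ∈ Coeff m 1 H | x.2 ≠ 0 ∧
        ¬ KhintchineUpTo (((1 * (2 * H + 1) ^ m : ℕ) : ℝ) ^ κ') c (LN.lang ε) (elt e' 1 x)} with hS
  have hSfin : S.Finite := (finite_coeff m 1 H).subset fun x hx => hx.1
  have hH' : (1 : ℝ) ≤ H := by exact_mod_cast hH
  -- the exponent
  have hexp : (H : ℝ) ^ κ ≤ ((1 * (2 * H + 1) ^ m : ℕ) : ℝ) ^ κ' := by
    calc (H : ℝ) ^ κ ≤ (H : ℝ) ^ (m * κ') := by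
          apply Real.rpow_le_rpow_of_exponent_le hH'
          rw [hκ', mul_div_cancel₀ _ hm0.ne']
          exact le_max_left _ _
      _ = ((H : ℝ) ^ m) ^ κ' := by rw [Real.rpow_mul (by positivity), Real.rpow_natCast]
      _ ≤ _ := by
          apply Real.rpow_le_rpow (by positivity) _ hκ0
          push_cast
          rw [one_mul]
          exact pow_le_pow_left₀ (by positivity) (by linarith) m
  -- the set of all elements
  set I : Finset ℤ := Finset.Icc (-(H : ℤ)) H with hI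
  have hIcard : I.card = 2 * H + 1 := by
    rw [hI, Int.card_Icc]
    omega
  set f : ℤ × (ℤ × (Fin m → ℤ)) → ℝ := fun y => (y.1 : ℝ) + elt e' 1 y.2 with hf
  have hnum : ∀ a : Fin (m + 1) → ℤ, ∑ i, (a i : ℝ) * e i = f (a 0, (0, fun i => a i.succ)) := by
    intro a
    simp only [hf, elt]
    rw [Fin.sum_univ_succ, he]
    simp [he']
  have hall : Integers e H = f '' ((I : Set ℤ) ×ˢ Coeff m 1 H) := by
    ext α
    constructor
    · rintro ⟨a, h2, rfl⟩
      refine ⟨(a 0, (0, fun i => a i.succ)), ⟨?_, ?_⟩, (hnum a).symm⟩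
      · rw [Finset.mem_coe, hI, Finset.mem_Icc]
        exact abs_le.1 (h2 0)
      · exact ⟨le_rfl, by simp, fun i => h2 i.succ⟩
    · rintro ⟨⟨k, x⟩, ⟨h2, h3⟩, rfl⟩
      refine ⟨Fin.cons k x.2, fun i => ?_, ?_⟩
      · refine Fin.cases ?_ (fun j => ?_) i
        · rw [Fin.cons_zero]
          rw [Finset.mem_coe, hI, Finset.mem_Icc] at h2
          exact abs_le.2 h2
        · rw [Fin.cons_succ]
          exact h3.2.2 j
      · rw [hnum]
        have h4 : x.1 = 0 := by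
          have h5 : 0 ≤ x.1 := h3.1
          have h6 : x.1 < ((1 : ℕ) : ℤ) := h3.2.1
          push_cast at h6
          omega
        simp only [Fin.cons_zero, Fin.cons_succ, hf]
        congr 2
        exact Prod.ext h4 rfl
  have hinj : Set.InjOn f ((I : Set ℤ) ×ˢ Coeff m 1 H) := by
    rintro ⟨k, x⟩ ⟨h2, h3⟩ ⟨l, y⟩ ⟨h4, h5⟩ h6
    simp only [hf] at h6
    have h7 : x = y := elt_inj hi' le_rfl x h3 y h5 (l - k) (by push_cast; linarith)
    subst h7
    have h8 : (k : ℝ) = l := by linarith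
    have h9 : k = l := by exact_mod_cast h8
    rw [h9]
  have hcardall : ((Integers e H).ncard : ℝ) = (2 * H + 1) * ((1 * (2 * H + 1) ^ m : ℕ) : ℝ) := by
    rw [hall, hinj.ncard_image, Set.ncard_prod, Set.ncard_coe_finset, hIcard,
      ncard_coeff]
    push_cast
    ring
  -- the bad elements
  have hsub : {α ∈ Integers e H | Irrational α ∧ ¬ LangUpTo ((H : ℝ) ^ κ) c ε α} ⊆
      f '' ((I : Set ℤ) ×ˢ S) := by
    rintro α ⟨h2, h3, h4⟩
    rw [hall] at h2
    obtain ⟨⟨k, x⟩, ⟨h5, h6⟩, rfl⟩ := h2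
    refine ⟨(k, x), ⟨h5, h6, ?_, ?_⟩, rfl⟩
    · intro h7
      apply h3
      simp only at h7
      simp only [hf, elt, h7]
      exact ⟨(k : ℚ) + x.1, by simp⟩
    · intro h7
      apply h4
      have h8 : LangUpTo (((1 * (2 * H + 1) ^ m : ℕ) : ℝ) ^ κ') c ε (elt e' 1 x) := lang_of h7
      have h9 : LangUpTo ((H : ℝ) ^ κ) c ε (elt e' 1 x) := fun p q hq hqN =>
        h8 p q hq (hqN.trans hexp)
      exact lang_add_int k h9
  have hfin : (f '' ((I : Set ℤ) ×ˢ S)).Finite := ((Finset.finite_toSet I).prod hSfin).image f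
  have h2 : ({α ∈ Integers e H | Irrational α ∧ ¬ LangUpTo ((H : ℝ) ^ κ) c ε α}.ncard : ℝ) ≤
      (2 * H + 1) * (S.ncard : ℝ) := by
    have h3 := (Set.ncard_le_ncard hsub hfin).trans
      (Set.ncard_image_le ((Finset.finite_toSet I).prod hSfin))
    rw [Set.ncard_prod, Set.ncard_coe_finset, hIcard] at h3
    exact_mod_cast h3
  rw [hcardall]
  have h3 : (0 : ℝ) ≤ 2 * H + 1 := by positivity
  calc _ ≤ (2 * H + 1) * (S.ncard : ℝ) := h2
    _ ≤ (2 * H + 1) * (η * ((1 * (2 * H + 1) ^ m : ℕ) : ℝ)) := mul_le_mul_of_nonneg_left h1 h3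
    _ = _ := by ring

/-- **Lang's inequality for almost all elements with any given denominator, and for almost all
integers, of every real number field.** Let `e 0, …, e (m - 1)` (`m ≥ 1`) be real algebraic numbers
such that `1, e 0, …, e (m - 1)` are linearly independent over `ℚ`.

(1) For `b ≥ 1` there are `b (2 H + 1) ^ m` coefficient vectors `(a₀, a)` with `0 ≤ a₀ < b`,
`|a i| ≤ H`, and the numbers `(a₀ + ∑ a i * e i) / b` are different modulo one.

(2) For every `κ < 1`, every nonnegative nonincreasing summable `ψ` and every `η > 0` there is `c > 0`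
such that for ALL `b, H ≥ 1`, with `N = b (2 H + 1) ^ m`: all but at most `η N` of the
`α = (a₀ + ∑ a i * e i) / b` with `a ≠ 0` satisfy `|α - p / q| > c ψ(q) / q` for all integers `p` and all
`1 ≤ q ≤ N ^ κ`.

(3) In particular, for all `κ < 1` and `ε, η > 0` there is `c > 0` such that for all `b, H ≥ 1` all but
at most `η N` of them satisfy `|α - p / q| > c / (q² (log q)^(1+ε))` for all `p` and all `2 ≤ q ≤ N ^ κ`.

(4) In (2) there are also `c > 0` and `N₀` such that for all `b, H ≥ 1` with `N ≥ N₀` and ALL real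
numbers `β` all but at most `η N` of the numbers `β + α` satisfy the inequality.

(5) Let `K ⊂ ℝ` be a number field with an integral basis `e 0 = 1, e 1, …, e m`, `m ≥ 1`. For every
`κ < m` and all `ε, η > 0` there is `c > 0` such that for every `H ≥ 1`, among the integers
`∑ a i * e i` of `K` with `|a i| ≤ H`, the proportion of the irrational ones which do not satisfy
`|α - p / q| > c / (q² (log q)^(1+ε))` for all `p` and all `2 ≤ q ≤ H ^ κ` is at most `η`. -/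
theorem result :
    (∀ (m : ℕ) (_ : 1 ≤ m) (e : Fin m → ℝ) (_ : ∀ i, IsAlgebraic ℚ (e i))
      (_ : LinearIndependent ℚ (Fin.cons 1 e : Fin (m + 1) → ℝ)),
      (∀ b H : ℕ, 1 ≤ b → (Coeff m b H).ncard = b * (2 * H + 1) ^ m ∧
        ∀ x ∈ Coeff m b H, ∀ y ∈ Coeff m b H, ∀ k : ℤ, elt e b x - elt e b y = k → x = y) ∧
      (∀ κ : ℝ, κ < 1 → ∀ ψ : ℕ → ℝ, (∀ q, 0 ≤ ψ q) → Antitone ψ → Summable ψ →
        ∀ η : ℝ, 0 < η → ∃ c : ℝ, 0 < c ∧ ∀ b H : ℕ, 1 ≤ b → 1 ≤ H →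
          ({x ∈ Coeff m b H | x.2 ≠ 0 ∧
            ¬ KhintchineUpTo (((b * (2 * H + 1) ^ m : ℕ) : ℝ) ^ κ) c ψ (elt e b x)}.ncard : ℝ) ≤
            η * ((b * (2 * H + 1) ^ m : ℕ) : ℝ)) ∧
      (∀ κ : ℝ, κ < 1 → ∀ ε η : ℝ, 0 < ε → 0 < η → ∃ c : ℝ, 0 < c ∧
        ∀ b H : ℕ, 1 ≤ b → 1 ≤ H →
          ({x ∈ Coeff m b H | x.2 ≠ 0 ∧
            ¬ LangUpTo (((b * (2 * H + 1) ^ m : ℕ) : ℝ) ^ κ) c ε (elt e b x)}.ncard : ℝ) ≤
            η * ((b * (2 * H + 1) ^ m : ℕ) : ℝ)) ∧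
      (∀ κ : ℝ, κ < 1 → ∀ ψ : ℕ → ℝ, (∀ q, 0 ≤ ψ q) → Antitone ψ → Summable ψ →
        ∀ η : ℝ, 0 < η → ∃ c : ℝ, 0 < c ∧ ∃ N₀ : ℕ, ∀ b H : ℕ, 1 ≤ b → 1 ≤ H →
          N₀ ≤ b * (2 * H + 1) ^ m → ∀ β : ℝ,
          ({x ∈ Coeff m b H |
            ¬ KhintchineUpTo (((b * (2 * H + 1) ^ m : ℕ) : ℝ) ^ κ) c ψ (β + elt e b x)}.ncard : ℝ) ≤
            η * ((b * (2 * H + 1) ^ m : ℕ) : ℝ))) ∧
    (∀ (K : IntermediateField ℚ ℝ) (m : ℕ) (_ : 1 ≤ m)
      (e : Module.Basis (Fin (m + 1)) ℤ (NumberField.RingOfIntegers K)) (_ : e 0 = 1),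
      ∀ κ : ℝ, κ < m → ∀ ε η : ℝ, 0 < ε → 0 < η → ∃ c : ℝ, 0 < c ∧ ∀ H : ℕ, 1 ≤ H →
        ({α ∈ Integers (fun i => (((e i : NumberField.RingOfIntegers K) : K) : ℝ)) H |
          Irrational α ∧ ¬ LangUpTo ((H : ℝ) ^ κ) c ε α}.ncard : ℝ) ≤
          η * ((Integers (fun i => (((e i : NumberField.RingOfIntegers K) : K) : ℝ)) H).ncard : ℝ)) := by
  refine ⟨fun m hm e ha hi => ⟨fun b H hb => ⟨ncard_coeff m b H, fun x hx y hy k h =>
    elt_inj (indep hi) hb x hx y hy k h⟩, fun κ hκ ψ hψ0 hψ hs η hη =>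
      khintchine hm e ha (indep hi) κ hκ ψ hψ0 hψ hs η hη, fun κ hκ ε η hε hη => ?_,
      fun κ hκ ψ hψ0 hψ hs η hη => translates hm e ha (indep hi) κ hκ ψ hψ0 hψ hs η hη⟩,
    fun K m hm e he κ hκ ε η hε hη => ?_⟩
  · obtain ⟨c, hc, h⟩ := khintchine hm e ha (indep hi) κ hκ (LN.lang ε) (LN.lang_nonneg ε)
      (LN.lang_anti ε hε) (LN.lang_summable ε hε) η hη
    refine ⟨c, hc, fun b H hb hH => le_trans ?_ (h b H hb hH)⟩
    have hfin : {x ∈ Coeff m b H | x.2 ≠ 0 ∧ ¬ KhintchineUpTo (((b * (2 * H + 1) ^ m : ℕ) : ℝ) ^ κ) c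
        (LN.lang ε) (elt e b x)}.Finite := (finite_coeff m b H).subset fun x hx => hx.1
    have hsub : {x ∈ Coeff m b H | x.2 ≠ 0 ∧
        ¬ LangUpTo (((b * (2 * H + 1) ^ m : ℕ) : ℝ) ^ κ) c ε (elt e b x)} ⊆
        {x ∈ Coeff m b H | x.2 ≠ 0 ∧ ¬ KhintchineUpTo (((b * (2 * H + 1) ^ m : ℕ) : ℝ) ^ κ) c
        (LN.lang ε) (elt e b x)} := by
      rintro x ⟨h1, h2, h3⟩
      exact ⟨h1, h2, fun h4 => h3 (lang_of h4)⟩
    exact_mod_cast Set.ncard_le_ncard hsub hfin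
  · refine integers hm (fun i => (((e i : NumberField.RingOfIntegers K) : K) : ℝ)) ?_ ?_ ?_ κ hκ ε η
      hε hη
    · simp [he]
    · intro i
      have h1 : IsIntegral ℤ ((e i : NumberField.RingOfIntegers K) : K) :=
        NumberField.RingOfIntegers.isIntegral_coe (e i)
      have h2 : IsAlgebraic ℚ ((e i : NumberField.RingOfIntegers K) : K) :=
        (h1.tower_top (A := ℚ)).isAlgebraic
      exact h2.algebraMap
    · have h1 := e.linearIndependent
      have h2 : LinearIndependent ℤ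
          (fun i => (((e i : NumberField.RingOfIntegers K) : K) : ℝ)) := by
        have h3 := h1.map' ((K.val.toLinearMap.restrictScalars ℤ).comp
          (Algebra.linearMap (NumberField.RingOfIntegers K) K |>.restrictScalars ℤ)) (by
            rw [LinearMap.ker_eq_bot]
            intro x y hxy
            exact NumberField.RingOfIntegers.coe_injective (K.val.injective hxy))
        exact h3
      exact (LinearIndependent.iff_fractionRing ℤ ℚ).1 h2

end Pool.Agent.Results.MP_c307ca_nt.EveryDenominator
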