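import Pool.Agent.D0H53.PL.Lng
import Pool.Agent.N965.LN.Sch

set_option autoImplicit false

/-!
# The Poisson law for the rational approximations of algebraic numbers at Lang's threshold

Let `1, e_1, …, e_m` (`m ≥ 1`) be real algebraic numbers, linearly independent over `ℚ`, for example an
(integral) basis of a real number field. For all `b ≥ 1` and `H ≥ 0` we consider the family of the
`N = b (2 H + 1) ^ m` algebraic numbers, different modulo one,

  `α = (a₀ + a_1 e_1 + ⋯ + a_m e_m) / b`,  `0 ≤ a₀ < b`, `|a_i| ≤ H`,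

and its translates `β + α` by arbitrary real numbers `β`. We count the reduced fractions `p / q` with
`Q₁ < q ≤ Q₂` and `|β + α - p / q| ≤ δ(q) / q²`, where `Q₂ ≤ N ^ κ` for some `κ < 1 / 2` and `δ` is small
and nonincreasing on the window. The number of these fractions is asymptotically distributed according to
the Poisson law with the mean `(12 / π²) ∑ δ(q) / q`, in total variation, uniformly in `b`, `H`, `β`, the
window and the function `δ`, as long as the mean is bounded.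

Lang's threshold is `δ(q) = z / log q`: the number of the reduced fractions with `N ^ a < q ≤ N ^ c`
(`0 < a < c < 1 / 2`) and `|β + α - p / q| ≤ z / (q² log q)` is asymptotically Poisson distributed with the
mean `(12 / π²) z log (c / a)`; for instance there is no such fraction for the proportion
`(a / c) ^ (12 z / π²)` of the family. It follows that Lang's inequality with `ε = 0`,
`|β + α - p / q| > c / (q² log q)`, is false for some `p / q` with `2 ≤ q ≤ N ^ κ`, for almost all members of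
the family, whatever `c > 0` and `κ > 0` are, while for every `ε > 0` Lang's inequality holds for almost all
members (`EveryDenominator`, helper71).

Proof: the factorial moments of the number of fractions. The `j`-th factorial moment is a sum over the chains
`p_1 / q_1, …, p_j / q_j` of fractions with increasing denominators which are close to each other, of the
proportion of the members which are close to the last fraction. A fraction close to `p_i / q_i` has a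
denominator larger than `q_i / (2 δ)`, and the number of the numerators `p_{i+1}` is the number of the
solutions of a linear inequality for residues modulo `q_i` prime to `q_{i+1}`; the sums over `q_{i+1}` are
evaluated with the Möbius function. The proportion of the members in an interval is its length up to
`O(N ^ (τ - 1))`, by the inequality of Erdős and Turán and Schmidt's theorem on simultaneous approximation
(library `Pool.Agent.N965.LN` of helper965 and others, from the subspace theorem). The law follows from the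
factorial moments by the inequalities of Bonferroni.
-/

namespace Pool.Agent.Results.MP_c307ca_nt.PoissonLaw

open Pool.Agent.N965 Pool.Agent.D0H53
open ProbabilityTheory (poissonMeasure)

/-- The coefficient vectors `(a₀, a)` with `0 ≤ a₀ < b` and `|a i| ≤ H`. -/
def Coeff (m b H : ℕ) : Set (ℤ × (Fin m → ℤ)) :=
  {x | 0 ≤ x.1 ∧ x.1 < (b : ℤ) ∧ ∀ i, |x.2 i| ≤ (H : ℤ)}

/-- The number `(a₀ + a_1 e_1 + ⋯ + a_m e_m) / b`. -/
noncomputable def elt {m : ℕ} (e : Fin m → ℝ) (b : ℕ) (x : ℤ × (Fin m → ℤ)) : ℝ :=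
  ((x.1 : ℝ) + ∑ i, (x.2 i : ℝ) * e i) / b

/-- The number of the reduced fractions `p / q` with `Q₁ < q ≤ Q₂` and `|α - p / q| ≤ δ(q) / q²`. -/
noncomputable def hits (Q₁ Q₂ : ℕ) (δ : ℕ → ℝ) (α : ℝ) : ℕ :=
  {x : ℤ × ℕ | Q₁ < x.2 ∧ x.2 ≤ Q₂ ∧ IsCoprime x.1 (x.2 : ℤ) ∧
    |α - (x.1 : ℝ) / x.2| ≤ δ x.2 / (x.2 : ℝ) ^ 2}.ncard

/-- The mean `(12 / π²) ∑ δ(q) / q` over `Q₁ < q ≤ Q₂`. -/
noncomputable def mean (Q₁ Q₂ : ℕ) (δ : ℕ → ℝ) : ℝ :=
  12 / Real.pi ^ 2 * ∑ q ∈ Finset.Ioc Q₁ Q₂, δ q / q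

/-- Lang's inequality for the number `α` with the constant `c`, for the denominators up to `N`. -/
def LangUpTo (N c ε α : ℝ) : Prop :=
  ∀ (p : ℤ) (q : ℕ), 2 ≤ q → (q : ℝ) ≤ N →
    c / ((q : ℝ) ^ 2 * Real.log q ^ (1 + ε)) < |α - (p : ℝ) / q|

theorem indep {m : ℕ} {e : Fin m → ℝ} (h : LinearIndependent ℚ (Fin.cons 1 e : Fin (m + 1) → ℝ)) :
    LN.Indep e := by
  intro a a₀ h0
  have h1 := Fintype.linearIndependent_iff.1 h (Fin.cons (a₀ : ℚ) fun i => (a i : ℚ)) (by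
      rw [Fin.sum_univ_succ]
      simp only [Fin.cons_zero, Fin.cons_succ]
      have h2 : ∀ (x : ℚ) (y : ℝ), x • y = (x : ℝ) * y := fun x y => Rat.smul_def x y
      simp only [h2]
      push_cast
      simpa using h0)
  funext i
  have h2 := h1 i.succ
  rw [Fin.cons_succ] at h2
  exact_mod_cast h2

theorem mem_co {m b H : ℕ} (x : ℤ × (Fin m → ℤ)) : x ∈ PL.co m b H ↔ x ∈ Coeff m b H := by
  unfold PL.co Coeff LN.box
  rw [Finset.mem_product, Finset.mem_Ico, Fintype.mem_piFinset]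
  simp only [Finset.mem_Icc, Set.mem_ofPred_eq, abs_le, and_assoc]

theorem coe_co (m b H : ℕ) : ((PL.co m b H : Finset _) : Set (ℤ × (Fin m → ℤ))) = Coeff m b H := by
  ext x
  rw [Finset.mem_coe, mem_co]

theorem ncard_coeff (m b H : ℕ) : (Coeff m b H).ncard = b * (2 * H + 1) ^ m := by
  rw [← coe_co, Set.ncard_coe_finset, PL.card_co]

theorem elt_inj {m : ℕ} {e : Fin m → ℝ} (hi : LN.Indep e) {b H : ℕ} (hb : 1 ≤ b)
    (x : ℤ × (Fin m → ℤ)) (hx : x ∈ Coeff m b H) (y : ℤ × (Fin m → ℤ)) (hy : y ∈ Coeff m b H)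
    (k : ℤ) (h : elt e b x - elt e b y = k) : x = y := by
  have hb0 : (0 : ℝ) < b := by exact_mod_cast hb
  have h1 : (((x.1 - y.1 - b * k : ℤ)) : ℝ) + ∑ i, (((x.2 - y.2) i : ℤ) : ℝ) * e i = 0 := by
    unfold elt at h
    have h2 : ∑ i, (((x.2 - y.2) i : ℤ) : ℝ) * e i =
        ∑ i, (x.2 i : ℝ) * e i - ∑ i, (y.2 i : ℝ) * e i := by
      rw [← Finset.sum_sub_distrib]
      refine Finset.sum_congr rfl fun i _ => ?_
      rw [Pi.sub_apply]
      push_cast
      ring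
    rw [h2]
    field_simp at h
    push_cast
    linarith
  have h2 := hi _ _ h1
  have h3 : x.2 = y.2 := sub_eq_zero.1 h2
  have h4 : (((x.1 - y.1 - b * k : ℤ)) : ℝ) = 0 := by
    rw [h2] at h1
    simpa using h1
  have h5 : x.1 - y.1 - b * k = 0 := by exact_mod_cast h4
  have h6 : x.1 ≡ y.1 [ZMOD b] := by
    have h7 : (b : ℤ) ∣ y.1 - x.1 := ⟨-k, by linarith⟩
    exact (Int.modEq_iff_dvd).2 h7
  have h7 : x.1 % b = y.1 % b := h6
  rw [Int.emod_eq_of_lt hx.1 hx.2.1, Int.emod_eq_of_lt hy.1 hy.2.1] at h7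
  exact Prod.ext h7 h3

/-- **The Poisson law for the rational approximations of algebraic numbers at Lang's threshold.** Let
`1, e_1, …, e_m` (`m ≥ 1`) be real algebraic numbers, linearly independent over `ℚ`.

(1) There are `N = b (2 H + 1) ^ m` vectors `(a₀, a)` with `0 ≤ a₀ < b` and `|a i| ≤ H`, and the numbers
`(a₀ + a_1 e_1 + ⋯ + a_m e_m) / b` are different modulo one.

(2) For all `κ < 1 / 2`, `L` and `ε > 0` there are `δ₀ > 0` and `N₀` such that for all `b ≥ 1`, `H ≥ 0` with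
`N ≥ N₀`, all real `β`, all windows `Q₁ < q ≤ Q₂` with `Q₂ ≤ N ^ κ` and all `δ`, nonincreasing on the window
with `0 ≤ δ ≤ δ₀` and with the mean `Λ = (12 / π²) ∑ δ(q) / q ≤ L`, the distribution of the number of the
reduced fractions with `Q₁ < q ≤ Q₂` and `|β + α - p / q| ≤ δ(q) / q²` differs from the Poisson law with
the mean `Λ` by at most `ε`, on every set `A` of integers.

(3) For `0 < a < c < 1 / 2`, `z ≥ 0` and `ε > 0` there is `N₀` such that for `N ≥ N₀` and all real `β` the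
distribution of the number of the reduced fractions with `N ^ a < q ≤ N ^ c` and
`|β + α - p / q| ≤ z / (q² log q)` differs by at most `ε` from the Poisson law with the mean
`(12 / π²) z log (c / a)`.

(4) For all `κ > 0`, `c > 0` and `η > 0` there is `N₀` such that for `N ≥ N₀` and all real `β` at most `η N`
members of the family satisfy `|β + α - p / q| > c / (q² log q)` for all `p` and all `2 ≤ q ≤ N ^ κ`, which is
Lang's inequality with `ε = 0`. -/
theorem result {m : ℕ} (hm : 1 ≤ m) (e : Fin m → ℝ) (ha : ∀ i, IsAlgebraic ℚ (e i))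
    (hli : LinearIndependent ℚ (Fin.cons 1 e : Fin (m + 1) → ℝ)) :
    (∀ b H : ℕ, 1 ≤ b → (Coeff m b H).ncard = b * (2 * H + 1) ^ m ∧
      ∀ x ∈ Coeff m b H, ∀ y ∈ Coeff m b H, ∀ k : ℤ, elt e b x - elt e b y = k → x = y) ∧
    (∀ κ L ε : ℝ, κ < 1 / 2 → 0 < ε → ∃ δ₀ : ℝ, 0 < δ₀ ∧ ∃ N₀ : ℕ, ∀ b H : ℕ, 1 ≤ b →
      N₀ ≤ b * (2 * H + 1) ^ m → ∀ (β : ℝ) (Q₁ Q₂ : ℕ),
      (Q₂ : ℝ) ≤ ((b * (2 * H + 1) ^ m : ℕ) : ℝ) ^ κ → ∀ δ : ℕ → ℝ,
      (∀ q ∈ Set.Ioc Q₁ Q₂, 0 ≤ δ q ∧ δ q ≤ δ₀) → AntitoneOn δ (Set.Ioc Q₁ Q₂) →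
      mean Q₁ Q₂ δ ≤ L → ∀ A : Set ℕ,
      |({x ∈ Coeff m b H | hits Q₁ Q₂ δ (β + elt e b x) ∈ A}.ncard : ℝ) /
        ((b * (2 * H + 1) ^ m : ℕ) : ℝ) - (poissonMeasure (mean Q₁ Q₂ δ).toNNReal).real A| ≤ ε) ∧
    (∀ a c z ε : ℝ, 0 < a → a < c → c < 1 / 2 → 0 ≤ z → 0 < ε → ∃ N₀ : ℕ, ∀ b H : ℕ, 1 ≤ b →
      N₀ ≤ b * (2 * H + 1) ^ m → ∀ (β : ℝ) (A : Set ℕ),
      |({x ∈ Coeff m b H | hits ⌊((b * (2 * H + 1) ^ m : ℕ) : ℝ) ^ a⌋₊
          ⌊((b * (2 * H + 1) ^ m : ℕ) : ℝ) ^ c⌋₊ (fun q => z / Real.log q) (β + elt e b x) ∈ A}.ncard : ℝ) /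
        ((b * (2 * H + 1) ^ m : ℕ) : ℝ) -
        (poissonMeasure (12 / Real.pi ^ 2 * z * Real.log (c / a)).toNNReal).real A| ≤ ε) ∧
    (∀ κ c η : ℝ, 0 < κ → 0 < c → 0 < η → ∃ N₀ : ℕ, ∀ b H : ℕ, 1 ≤ b →
      N₀ ≤ b * (2 * H + 1) ^ m → ∀ β : ℝ,
      ({x ∈ Coeff m b H |
        LangUpTo (((b * (2 * H + 1) ^ m : ℕ) : ℝ) ^ κ) c 0 (β + elt e b x)}.ncard : ℝ) ≤
        η * ((b * (2 * H + 1) ^ m : ℕ) : ℝ)) := by
  have hcnt : LN.Cnt e := LN.t_CNT m _ (LN.t_SCH m _ hm ha (indep hli))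
  have hanti : ∀ (Q₁ Q₂ : ℕ) (δ : ℕ → ℝ), AntitoneOn δ (Set.Ioc Q₁ Q₂) →
      ∀ p q, Q₁ < p → p ≤ q → q ≤ Q₂ → δ q ≤ δ p := fun Q₁ Q₂ δ h p q h1 h2 h3 =>
    h ⟨h1, h2.trans h3⟩ ⟨lt_of_lt_of_le h1 h2, h3⟩ h2
  refine ⟨fun b H hb => ⟨ncard_coeff m b H, fun x hx y hy k h => elt_inj (indep hli) hb x hx y hy k h⟩, ?_, ?_, ?_⟩
  · intro κ L ε hκ hε
    obtain ⟨δ₀, h1, N₀, h2⟩ := PL.gen_law hm e hcnt κ hκ (max L 0) (le_max_right _ _) ε hε
    refine ⟨δ₀, h1, N₀, fun b H hb hN β Q₁ Q₂ hQ δ hδ hδa hmean A => ?_⟩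
    have hm0 : 0 ≤ mean Q₁ Q₂ δ := by
      unfold mean
      apply mul_nonneg (by positivity)
      refine Finset.sum_nonneg fun q hq => ?_
      rw [Finset.mem_Ioc] at hq
      exact div_nonneg (hδ q hq).1 (Nat.cast_nonneg _)
    have hm1 : mean Q₁ Q₂ δ ≤ max L 0 := hmean.trans (le_max_left _ _)
    have h3 := h2 b H hb hN β Q₁ Q₂ hQ δ (hanti Q₁ Q₂ δ hδa) (fun q h4 h5 => (hδ q ⟨h4, h5⟩).1)
      (fun q h4 h5 => (hδ q ⟨h4, h5⟩).2) hm1 (mean Q₁ Q₂ δ) hm0 hm1 (by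
        have : PL.Mn Q₂ δ Q₁ - mean Q₁ Q₂ δ = 0 := sub_self _
        rw [this, abs_zero]
        exact h1.le) A
    rw [coe_co] at h3
    exact h3
  · intro a c z ε h1 h2 h3 h4 h5
    obtain ⟨N₀, h6⟩ := PL.lang_threshold hm e hcnt a c z h1 h2 h3 h4 ε h5
    refine ⟨N₀, fun b H hb hN β A => ?_⟩
    have h7 := h6 b H hb hN β A
    rw [coe_co] at h7
    exact h7
  · intro κ c η h1 h2 h3
    obtain ⟨N₀, h4⟩ := PL.lang_zero hm e hcnt κ h1 c η h2 h3
    refine ⟨N₀, fun b H hb hN β => ?_⟩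
    have h5 := h4 b H hb hN β
    rw [coe_co] at h5
    have h6 : {x ∈ Coeff m b H |
        LangUpTo (((b * (2 * H + 1) ^ m : ℕ) : ℝ) ^ κ) c 0 (β + elt e b x)} =
        {x ∈ Coeff m b H | ∀ (p : ℤ) (q : ℕ), 2 ≤ q →
      (q : ℝ) ≤ ((b * (2 * H + 1) ^ m : ℕ) : ℝ) ^ κ →
      c / ((q : ℝ) ^ 2 * Real.log q) < |β + LN.num e b x.1 x.2 - (p : ℝ) / q|} := by
      ext x
      unfold LangUpTo
      simp only [add_zero, Real.rpow_one]
      rfl
    rw [h6]
    exact h5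

end Pool.Agent.Results.MP_c307ca_nt.PoissonLaw
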